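import Pool.Agent.Y146.GR.Types

/-!
# The criterion
-/

open CategoryTheory AlgebraicGeometry

universe u v

namespace Pool.Agent.Y146.GR

open Pool.Agent.H914 Pool.Agent.H914.VarClass Pool.Agent.H914.VarClass.Obj
  Pool.Agent.H914.WeilCohomology Pool.Agent.H281R3.HT Pool.Agent.W552 Pool.Agent.W550.B

variable {k : Type u} [Field k] {𝒱 : VarClass k} {ops : CycleOps 𝒱}
  {W : WeilCohomology.{u, v} ops} {X Y Z Q : 𝒱.Obj} {𝓜 : Set (Datum 𝒱)}

/-- Sums of algebraic classes which are orthogonal to all algebraic classes. -/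
def NT (W : WeilCohomology.{u, v} ops) (X : 𝒱.Obj) (a : W.H X) : Prop :=
  AS W X a ∧ ∀ b, AS W X b → W.tr X (a * b) = 0

namespace NT

lemma span {a : W.H X} (h : NT W X a) {b : W.H X} (hb : b ∈ algSpan W X) :
    W.tr X (a * b) = 0 := by
  refine algSpan_induction (p := fun b => W.tr X (a * b) = 0) h.2 ?_ ?_ hb
  · intro c d hc hd
    rw [mul_add, map_add, hc, hd, add_zero]
  · intro t c hc
    rw [mul_smul_comm, map_smul, hc, smul_zero]

lemma apply {u : W.H X →ₗ[W.K] W.H Y} (hu : AOp W X Y u) {a : W.H X} (h : NT W X a) :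
    NT W Y (u a) := by
  refine ⟨hu.apply h.1, fun b hb => ?_⟩
  obtain ⟨u', hu', hadj⟩ := hu.adj
  rw [hadj]
  exact h.2 _ (hu'.apply hb)

lemma ext {a : W.H X} (h : NT W X a) {b : W.H Y} (hb : AS W Y b) :
    NT W (X.prod Y) (ext W a b) := by
  refine ⟨h.1.ext hb, fun c hc => ?_⟩
  have h1 : H281R3.HT.ext W a b * c = (W.map (snd X Y) b * c) * W.map (fst X Y) a := by
    rw [H281R3.HT.ext, mul_assoc, AS.comm (h.1.map _)]
  rw [h1, ← W.tr_push]
  rw [← AS.comm h.1]
  exact h.2 _ (((hb.map _).mul hc).push _)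

end NT

/-- The classes of numerically trivial cycles. -/
lemma nt_of_num {j : ℕ} (hj : j ≤ Y.dim) {z : Y.Cycles} (hz : Y.IsCyc j z)
    (hnum : ∀ w, Y.IsCyc (Y.dim - j) w → Y.V.degCycle (ops.mul z w) = 0) :
    NT W Y (W.cl Y z) := by
  refine ⟨AS.of ⟨z, hz, rfl⟩, fun b hb => ?_⟩
  refine AS.ind (p := fun b => W.tr Y (W.cl Y z * b) = 0) ?_ ?_ hb
  · rintro i _ ⟨w, hw, rfl⟩
    by_cases hi : i = Y.dim - j
    · subst hi
      have h1 := ops.mul_mem hz hw
      rw [show j + (Y.dim - j) = Y.dim by omega] at h1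
      rw [← W.cl_mul, W.tr_cl h1, hnum w hw, Rat.cast_zero]
    · exact W.tr_eq_zero (W.mul_mem (W.cl_mem hz) (W.cl_mem hw)) (by omega)
  · intro c d hc hd
    rw [mul_add, map_add, hc, hd, add_zero]

/-- The orientation and conjugations. -/
lemma tr_conj (σ : Conjugation W) (a : W.H X) : W.tr X (σ.σ X a) = σ.τ (W.tr X a) := by
  by_cases h0 : (1 : W.H X) = 0
  · have h1 : ∀ b : W.H X, b = 0 := fun b => by rw [← mul_one b, h0, mul_zero]
    rw [h1 (σ.σ X a), h1 a, map_zero, map_zero]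
  have h1 : σ.σ X 1 = 1 := by
    have := σ.cl X X.V.fundCycle
    rwa [W.cl_fund] at this
  have h2 := W.push_snd' (X := X) (Y := X) (σ.σ X a)
  rw [σ.map (fst X X) a, σ.push (snd X X), W.push_snd', (σ.isConjugation X).smul, h1] at h2
  have h3 : (σ.τ (W.tr X a) - W.tr X (σ.σ X a)) • (1 : W.H X) = 0 := by
    rw [sub_smul, h2, sub_self]
  rcases smul_eq_zero.1 h3 with h4 | h4
  · exact (sub_eq_zero.1 h4).symm
  · exact absurd h4 h0

lemma aop_cyc {p : ℕ} {γ : (Q.prod Y).Cycles} (hγ : (Q.prod Y).IsCyc p γ) :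
    AOp W Q Y (cycMap W γ) := ⟨_, AS.of ⟨γ, hγ, rfl⟩, rfl⟩

lemma cycMap_conj (σ : Conjugation W) (γ : (Q.prod Y).Cycles) (x : W.H Q) :
    cycMap W γ (σ.σ Q x) = σ.σ Y (cycMap W γ x) := by
  rw [cycMap, corr_apply, corr_apply, ← σ.push (snd Q Y), (σ.isConjugation _).mul, σ.cl,
    σ.map (fst Q Y)]

lemma map_iter_pow (F : Q ⟶ Q) {n q : ℕ} (h : ∀ w, W.tr Q (W.map F w) = (q : W.K) ^ n * W.tr Q w)
    (m : ℕ) (w : W.H Q) : W.tr Q ((W.map F)^[m] w) = (q : W.K) ^ (m * n) * W.tr Q w := by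
  induction m with
  | zero => simp
  | succ m ih =>
    rw [Function.iterate_succ_apply', h, ih, ← mul_assoc, ← pow_add]
    congr 2
    ring

lemma iterate_mul (F : Q ⟶ Q) (m : ℕ) (a b : W.H Q) :
    (W.map F)^[m] (a * b) = (W.map F)^[m] a * (W.map F)^[m] b := by
  induction m with
  | zero => rfl
  | succ m ih =>
    rw [Function.iterate_succ_apply', ih, map_mul, Function.iterate_succ_apply',
      Function.iterate_succ_apply']

/-- The types which pair non-trivially with algebraic classes are relations. -/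
lemma isTateRel_of_tr {q : ℕ} (hq : q ≠ 0) {F : Q ⟶ Q} {V : Submodule W.K (W.H Q)}
    {L : Multiset (ℕ × W.K) → W.H Q → Prop} (hL : IsTypes W 𝓜 q Q F V L)
    (hF : FrobeniusOnCycles W Q F q) {s : Multiset (ℕ × W.K)} {x : W.H Q} (hx : L s x)
    {a : W.H Q} (ha : AS W Q a) (hne : W.tr Q (a * x) ≠ 0) : IsTateRel q s := by
  revert hne
  refine AS.ind (p := fun a => W.tr Q (a * x) ≠ 0 → IsTateRel q s) ?_ ?_ ha
  · rintro i _ ⟨z, hz, rfl⟩ hne
    have hxm := (hL.mono s x hx).mem_gr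
    have hdeg : 2 * i + (s.map Prod.fst).sum = 2 * Q.dim := by
      by_contra hcon
      exact hne (W.tr_eq_zero (W.mul_mem (W.cl_mem hz) hxm) hcon)
    obtain ⟨m, hm, hm'⟩ := hF i z hz
    rw [cl_iterate] at hm'
    refine ⟨Q.dim - i, by omega, m, hm, ?_⟩
    have h1 := map_iter_pow F hL.tr m (W.cl Q z * x)
    rw [iterate_mul, hm', iterate_eigen _ (hL.frob s x hx), smul_mul_smul_comm, map_smul,
      smul_eq_mul] at h1
    have h2 := mul_right_cancel₀ hne h1
    have hqK : (q : W.K) ≠ 0 := by exact_mod_cast hq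
    apply mul_left_cancel₀ (pow_ne_zero (m * i) hqK)
    rw [h2, ← pow_add]
    congr 1
    rw [← Nat.mul_add]
    congr 1
    omega
  · intro a b ha hb hne
    by_cases h1 : W.tr Q (a * x) = 0
    · by_cases h2 : W.tr Q (b * x) = 0
      · rw [add_mul, map_add, h1, h2, add_zero] at hne
        exact absurd rfl hne
      · exact hb h2
    · exact ha h1

/-- Sums of relations are relations. -/
lemma isTateRel_add {q : ℕ} {s t : Multiset (ℕ × W.K)} (hs : IsTateRel q s)
    (ht : IsTateRel q t) : IsTateRel q (s + t) := by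
  obtain ⟨i, hi, m, hm, hm'⟩ := hs
  obtain ⟨j, hj, r, hr, hr'⟩ := ht
  refine ⟨i + j, by rw [Multiset.map_add, Multiset.sum_add, hi, hj]; ring, m * r,
    Nat.mul_pos hm hr, ?_⟩
  have e1 : (s.map Prod.snd).prod ^ (m * r) = (q : W.K) ^ (m * i * r) := by
    rw [pow_mul, hm', ← pow_mul]
  have e2 : (t.map Prod.snd).prod ^ (m * r) = (q : W.K) ^ (r * j * m) := by
    rw [mul_comm m r, pow_mul, hr', ← pow_mul]
  rw [Multiset.map_add, Multiset.prod_add, mul_pow, e1, e2, ← pow_add]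
  congr 1
  ring

lemma isTateRel_zero {q : ℕ} : IsTateRel q (0 : Multiset (ℕ × W.K)) :=
  ⟨0, by simp, 1, le_refl _, by simp⟩

/-- **The criterion.** -/
theorem eq_zero_of_num {q : ℕ} (hq : q ≠ 0) (C : Set (Conjugation W))
    (h1 : ∀ M ∈ 𝓜, IsFrobenius W q M) (h2 : ∀ M ∈ 𝓜, ∀ N ∈ 𝓜, PairTate W q M N)
    (h3 : ∀ Q F V, IsTensorProduct W 𝓜 Q F V → FrobeniusOnCycles W Q F q)
    (h4 : StableRelationsSplit W q 𝓜 C) (hY : GeneratedBy W 𝓜 Y) : HomEqNum W Y := by
  classical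
  intro j hj z₀ hz₀ hnum₀
  by_contra hne₀
  -- a class which pairs non-trivially
  obtain ⟨Q, F, V, p, γ, hT, hγ, x₀, hx₀, htr₀⟩ : ∃ (Q : 𝒱.Obj) (F : Q ⟶ Q)
      (V : Submodule W.K (W.H Q)) (p : ℕ) (γ : (Q.prod Y).Cycles), IsTensorProduct W 𝓜 Q F V ∧
      (Q.prod Y).IsCyc p γ ∧ ∃ x ∈ V, W.tr Y (W.cl Y z₀ * cycMap W γ x) ≠ 0 := by
    by_contra hcon
    push Not at hcon
    apply hne₀
    apply W.nondeg
    intro b
    have hb : b ∈ Submodule.span W.K {c : W.H Y | ∃ (Q : 𝒱.Obj) (F : Q ⟶ Q)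
        (V : Submodule W.K (W.H Q)) (p : ℕ) (γ : (Q.prod Y).Cycles),
        IsTensorProduct W 𝓜 Q F V ∧ (Q.prod Y).IsCyc p γ ∧ ∃ x ∈ V, c = cycMap W γ x} := by
      have h5 : Submodule.span W.K _ = ⊤ := hY
      rw [h5]
      exact Submodule.mem_top
    induction hb using Submodule.span_induction with
    | mem b hb =>
      obtain ⟨Q, F, V, p, γ, hT, hγ, x, hx, rfl⟩ := hb
      exact hcon Q F V p γ hT hγ x hx
    | zero => rw [mul_zero, map_zero]
    | add a b _ _ ha hb => rw [mul_add, map_add, ha, hb, add_zero]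
    | smul c a _ ha => rw [mul_smul_comm, map_smul, ha, smul_zero]
  obtain ⟨L, hL⟩ := exists_types h1 hT
  have hFr := h3 Q F V hT
  -- the types which are met by numerically trivial cycles
  set P : Set (Multiset (ℕ × W.K)) := {s | ∃ z, Y.IsCyc j z ∧
    (∀ w, Y.IsCyc (Y.dim - j) w → Y.V.degCycle (ops.mul z w) = 0) ∧
    ∃ x, L s x ∧ W.tr Y (W.cl Y z * cycMap W γ x) ≠ 0} with hP
  have hPfin : P.Finite := by
    refine hL.fin.subset ?_
    rintro s ⟨z, _, _, x, hx, htr⟩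
    refine ⟨x, ?_, hx⟩
    rintro rfl
    exact htr (by rw [map_zero, mul_zero, map_zero])
  have hPne : P.Nonempty := by
    by_contra hcon
    apply htr₀
    have h5 := hL.span x₀ hx₀
    clear htr₀ hx₀
    induction h5 using Submodule.span_induction with
    | mem y hy =>
      obtain ⟨s, hs⟩ := hy
      by_contra hne
      exact hcon ⟨s, z₀, hz₀, hnum₀, y, hs, hne⟩
    | zero => rw [map_zero, mul_zero, map_zero]
    | add a b _ _ ha hb => rw [map_add, mul_add, map_add, ha, hb, add_zero]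
    | smul c a _ ha => rw [map_smul, mul_smul_comm, map_smul, ha, smul_zero]
  -- the adjoint correspondence
  obtain ⟨γt, hγt, hadj⟩ := (aop_cyc (W := W) hγ).adj
  have hPex : ∀ s ∈ P, ∃ a x, NT W Q a ∧ L s x ∧ W.tr Q (a * x) ≠ 0 := by
    rintro s ⟨z, hz, hnum, x, hx, htr⟩
    have hNT := nt_of_num (W := W) hj hz hnum
    refine ⟨γt (W.cl Y z), x, hNT.apply hγt, hx, ?_⟩
    rw [AS.comm hNT.1, hadj, ← AS.comm (hNT.apply hγt).1] at htr
    exact htr
  have hPmap : ∀ σ ∈ C, ∀ s ∈ P, s.map (Prod.map id σ.τ) ∈ P := by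
    rintro σ _ s ⟨z, hz, hnum, x, hx, htr⟩
    refine ⟨z, hz, hnum, σ.σ Q x, hL.conj σ s x hx, ?_⟩
    rw [cycMap_conj, ← σ.cl Y z, ← (σ.isConjugation Y).mul, tr_conj, Ne, map_eq_zero]
    exact htr
  -- the sum of the types
  set PF : Finset (Multiset (ℕ × W.K)) := hPfin.toFinset with hPF
  have hmem : ∀ s, s ∈ PF ↔ s ∈ P := fun s => by rw [hPF, Set.Finite.mem_toFinset]
  have hprod : ∀ R : Finset (Multiset (ℕ × W.K)), R.Nonempty → (∀ s ∈ R, s ∈ P) →
      ∃ (Z : 𝒱.Obj) (a y : W.H Z), NT W Z a ∧ IsMono W 𝓜 Z (∑ s ∈ R, s) y ∧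
        W.tr Z (a * y) ≠ 0 := by
    intro R hR hRP
    induction hR using Finset.Nonempty.cons_induction with
    | singleton s =>
      obtain ⟨a, x, ha, hx, htr⟩ := hPex s (hRP s (Finset.mem_singleton_self s))
      exact ⟨Q, a, x, ha, by rw [Finset.sum_singleton]; exact hL.mono s x hx, htr⟩
    | cons s R hs _ ih =>
      obtain ⟨Z, a, y, ha, hy, htr⟩ := ih (fun t ht => hRP t (Finset.mem_cons_of_mem ht))
      obtain ⟨a', x', ha', hx', htr'⟩ := hPex s (hRP s (Finset.mem_cons_self s R))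
      refine ⟨Q.prod Z, ext W a' a, ext W x' y, ha'.ext ha.1, ?_, ?_⟩
      · rw [Finset.sum_cons]
        exact ((hL.mono s x' hx').map _).mul (hy.map _)
      · have e1 : ext W a' a * ext W x' y =
            W.map (fst Q Z) (a' * x') * W.map (snd Q Z) (a * y) := by
          rw [H281R3.HT.ext, H281R3.HT.ext, map_mul, map_mul, mul_assoc,
            ← mul_assoc (W.map (snd Q Z) a), AS.comm (ha.1.map (snd Q Z)) (W.map (fst Q Z) x')]
          simp only [mul_assoc]
        rw [e1, W.tr_prod]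
        exact mul_ne_zero htr' htr
  obtain ⟨Z, a, y, ha, hy, htr⟩ := hprod PF (by
    obtain ⟨s, hs⟩ := hPne
    exact ⟨s, (hmem s).2 hs⟩) (fun s hs => (hmem s).1 hs)
  apply htr
  apply ha.span
  refine mem_algSpan h1 h2 ?_ hy
  apply h4
  · refine hy.weights ?_
    rintro rfl
    exact htr (by rw [mul_zero, map_zero])
  · have h5 : ∀ R : Finset (Multiset (ℕ × W.K)), (∀ s ∈ R, s ∈ P) →
        IsTateRel q (∑ s ∈ R, s) := by
      intro R hR
      induction R using Finset.induction_on with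
      | empty => rw [Finset.sum_empty]; exact isTateRel_zero
      | insert s R hs ih =>
        rw [Finset.sum_insert hs]
        refine isTateRel_add ?_ (ih fun t ht => hR t (Finset.mem_insert_of_mem ht))
        obtain ⟨a, x, ha, hx, htr⟩ := hPex s (hR s (Finset.mem_insert_self s R))
        exact isTateRel_of_tr hq hL hFr hx ha.1 htr
    exact h5 PF (fun s hs => (hmem s).1 hs)
  · intro σ hσ
    have hinj : Function.Injective (Multiset.map (Prod.map (id : ℕ → ℕ) σ.τ)) :=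
      Multiset.map_injective (Function.Injective.prodMap Function.injective_id σ.τ.injective)
    have h5 : PF.image (Multiset.map (Prod.map (id : ℕ → ℕ) σ.τ)) = PF := by
      apply Finset.eq_of_subset_of_card_le
      · intro t ht
        obtain ⟨s, hs, rfl⟩ := Finset.mem_image.1 ht
        exact (hmem _).2 (hPmap σ hσ s ((hmem s).1 hs))
      · rw [Finset.card_image_of_injective _ hinj]
    have h6 : (∑ s ∈ PF, s).map (Prod.map id σ.τ) =
        ∑ s ∈ PF, s.map (Prod.map id σ.τ) :=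
      map_sum (Multiset.mapAddMonoidHom (Prod.map (id : ℕ → ℕ) σ.τ)) _ _
    rw [h6]
    conv_rhs => rw [← h5]
    rw [Finset.sum_image (fun s _ t _ hst => hinj hst)]

end Pool.Agent.Y146.GR
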