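import Pool.Agent.Y146.GR.Stm
import Pool.Agent.W552.AS
import Pool.Agent.W552.Frob

/-!
# Monomials in eigenvectors
-/

open CategoryTheory AlgebraicGeometry

universe u v

namespace Pool.Agent.Y146.GR

open Pool.Agent.H914 Pool.Agent.H914.VarClass Pool.Agent.H914.VarClass.Obj
  Pool.Agent.H914.WeilCohomology Pool.Agent.H281R3.HT Pool.Agent.W552 Pool.Agent.W550.B

variable {k : Type u} [Field k] {𝒱 : VarClass k} {ops : CycleOps 𝒱}
  {W : WeilCohomology.{u, v} ops} {X Y Z : 𝒱.Obj} {𝓜 : Set (Datum 𝒱)}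

/-- The monomials on `Z` in pull-backs of eigenvectors of degrees in the given sets of degrees, with
the multiset of the degrees and the eigenvalues. -/
inductive IsMono (W : WeilCohomology.{u, v} ops) (𝓜 : Set (Datum 𝒱)) (Z : 𝒱.Obj) :
    Multiset (ℕ × W.K) → W.H Z → Prop
  | one : IsMono W 𝓜 Z 0 1
  | cons {s : Multiset (ℕ × W.K)} {x : W.H Z} {d : ℕ} {α : W.K} {M : Datum 𝒱} (hM : M ∈ 𝓜)
      (π : Z ⟶ M.X) {y : W.H M.X} (hd : d ∈ M.D) (hy : y ∈ W.gr M.X d)
      (hα : W.map M.f y = α • y) (hx : IsMono W 𝓜 Z s x) :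
      IsMono W 𝓜 Z ((d, α) ::ₘ s) (W.map π y * x)

namespace IsMono

variable {s t : Multiset (ℕ × W.K)}

lemma mul {x x' : W.H Z} (h : IsMono W 𝓜 Z s x) (h' : IsMono W 𝓜 Z t x') :
    IsMono W 𝓜 Z (s + t) (x * x') := by
  induction h with
  | one => rwa [zero_add, one_mul]
  | cons hM π hd hy hα _ ih =>
    rw [Multiset.cons_add, mul_assoc]
    exact cons hM π hd hy hα ih

lemma map (g : Y ⟶ Z) {x : W.H Z} (h : IsMono W 𝓜 Z s x) : IsMono W 𝓜 Y s (W.map g x) := by
  induction h with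
  | one => rw [map_one]; exact one
  | cons hM π hd hy hα _ ih =>
    rw [map_mul, ← W.map_comp]
    exact cons hM (g ≫ π) hd hy hα ih

lemma mem_gr {x : W.H Z} (h : IsMono W 𝓜 Z s x) : x ∈ W.gr Z (s.map Prod.fst).sum := by
  induction h with
  | one => exact W.one_mem Z
  | cons hM π hd hy hα _ ih =>
    rw [Multiset.map_cons, Multiset.sum_cons]
    exact W.mul_mem (W.map_mem π hy) ih

lemma eq_one {x : W.H Z} (h : IsMono W 𝓜 Z s x) (hs : s = 0) : x = 1 := by
  induction h with
  | one => rfl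
  | cons _ _ _ _ _ _ _ => exact absurd hs Multiset.cons_ne_zero

/-- The weights of a nonzero monomial are eigenvalues. -/
lemma weights {x : W.H Z} (h : IsMono W 𝓜 Z s x) (hx : x ≠ 0) :
    ∀ a ∈ s, ∃ M ∈ 𝓜, a.1 ∈ M.D ∧ IsWeight W M.f a := by
  induction h with
  | one => intro a ha; exact absurd ha (Multiset.notMem_zero a)
  | @cons s x d α M hM π y hd hy hα _ ih =>
    intro a ha
    rcases Multiset.mem_cons.1 ha with rfl | ha
    · refine ⟨M, hM, hd, y, hy, ?_, hα⟩
      rintro rfl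
      exact hx (by rw [map_zero, zero_mul])
    · refine ih ?_ a ha
      rintro rfl
      exact hx (by rw [mul_zero])

/-- The conjugate of a monomial. -/
lemma conj (σ : Conjugation W) {x : W.H Z} (h : IsMono W 𝓜 Z s x) :
    IsMono W 𝓜 Z (s.map (Prod.map id σ.τ)) (σ.σ Z x) := by
  induction h with
  | one =>
    have h1 : σ.σ Z 1 = 1 := by
      have := σ.cl Z Z.V.fundCycle
      rwa [W.cl_fund] at this
    rw [h1, Multiset.map_zero]
    exact one
  | @cons s x d α M hM π y hd hy hα _ ih =>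
    rw [Multiset.map_cons, (σ.isConjugation Z).mul, ← σ.map π]
    refine cons hM π hd ((σ.isConjugation _).gr _ _ hy) ?_ ih
    rw [σ.map M.f, hα, (σ.isConjugation _).smul]

/-- A factor with a given weight can be moved to the front. -/
lemma extract {a : ℕ × W.K} {x : W.H Z} (h : IsMono W 𝓜 Z s x) (hs : s = a ::ₘ t) :
    ∃ (M : Datum 𝒱) (π : Z ⟶ M.X) (y : W.H M.X) (x' : W.H Z) (ε : W.K), M ∈ 𝓜 ∧ a.1 ∈ M.D ∧
      y ∈ W.gr M.X a.1 ∧ W.map M.f y = a.2 • y ∧ IsMono W 𝓜 Z t x' ∧
      x = ε • (W.map π y * x') := by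
  classical
  induction h generalizing t with
  | one => exact absurd hs.symm (Multiset.cons_ne_zero)
  | @cons s₁ x₁ d α M hM π y hd hy hα hx ih =>
    rcases (Multiset.cons_eq_cons).1 hs with ⟨h1, h2⟩ | ⟨_, t', h1, h2⟩
    · subst h1 h2
      exact ⟨M, π, y, x₁, 1, hM, hd, hy, hα, hx, by rw [one_smul]⟩
    · obtain ⟨M', π', y', x', ε, hM', hd', hy', hα', hx', rfl⟩ := ih h1
      refine ⟨M', π', y', W.map π y * x', ε * (-1) ^ (d * a.1), hM', hd', hy', hα', ?_, ?_⟩
      · rw [h2]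
        exact cons hM π hd hy hα hx'
      · rw [mul_smul_comm, ← mul_assoc, ← mul_assoc, W.comm (W.map_mem π hy) (W.map_mem π' hy'),
          smul_mul_assoc, smul_smul]

end IsMono

section AlgSpan

lemma algSpan_induction {p : W.H X → Prop} (h1 : ∀ a, AS W X a → p a)
    (h2 : ∀ a b, p a → p b → p (a + b)) (h3 : ∀ (c : W.K) a, p a → p (c • a)) {x : W.H X}
    (hx : x ∈ algSpan W X) : p x := by
  induction hx using Submodule.span_induction with
  | mem x hx =>
    obtain ⟨j, hj⟩ := Set.mem_iUnion.1 hx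
    exact h1 _ (AS.of hj)
  | zero => exact h1 0 AS.zero
  | add a b _ _ ha hb => exact h2 a b ha hb
  | smul c a _ ha => exact h3 c a ha

lemma algSpan_of_AS {x : W.H X} (hx : AS W X x) : x ∈ algSpan W X := by
  refine AS.ind (p := fun x => x ∈ algSpan W X) ?_ ?_ hx
  · intro j x hx
    exact Submodule.subset_span (Set.mem_iUnion.2 ⟨j, hx⟩)
  · intro x y hx hy
    exact Submodule.add_mem _ hx hy

lemma algSpan_mul {x y : W.H X} (hx : x ∈ algSpan W X) (hy : y ∈ algSpan W X) :
    x * y ∈ algSpan W X := by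
  refine algSpan_induction (p := fun x => x * y ∈ algSpan W X) ?_ ?_ ?_ hx
  · intro a ha
    refine algSpan_induction (p := fun y => a * y ∈ algSpan W X) ?_ ?_ ?_ hy
    · intro b hb
      exact algSpan_of_AS (ha.mul hb)
    · intro b b' hb hb'
      rw [mul_add]; exact Submodule.add_mem _ hb hb'
    · intro c b hb
      rw [mul_smul_comm]; exact Submodule.smul_mem _ _ hb
  · intro a b ha hb
    rw [add_mul]; exact Submodule.add_mem _ ha hb
  · intro c a ha
    rw [smul_mul_assoc]; exact Submodule.smul_mem _ _ ha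

lemma algSpan_map (g : X ⟶ Y) {x : W.H Y} (hx : x ∈ algSpan W Y) :
    W.map g x ∈ algSpan W X := by
  refine algSpan_induction (p := fun x => W.map g x ∈ algSpan W X) ?_ ?_ ?_ hx
  · intro a ha
    exact algSpan_of_AS (ha.map g)
  · intro a b ha hb
    rw [map_add]; exact Submodule.add_mem _ ha hb
  · intro c a ha
    rw [map_smul]; exact Submodule.smul_mem _ _ ha

end AlgSpan

/-- **Monomials with split relations are combinations of algebraic classes.** -/
theorem mem_algSpan {q : ℕ} (h1 : ∀ M ∈ 𝓜, IsFrobenius W q M)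
    (h2 : ∀ M ∈ 𝓜, ∀ N ∈ 𝓜, PairTate W q M N) {s : Multiset (ℕ × W.K)} (hs : PairGenerated q s)
    {x : W.H Z} (hx : IsMono W 𝓜 Z s x) : x ∈ algSpan W Z := by
  induction hs generalizing x with
  | zero =>
    rw [hx.eq_one rfl]
    exact algSpan_of_AS AS.one
  | @single a t ha _ ih =>
    obtain ⟨M, π, y, x', ε, hM, hd, hy, hα, hx', rfl⟩ := hx.extract rfl
    apply Submodule.smul_mem
    refine algSpan_mul (algSpan_map π ?_) (ih hx')
    obtain ⟨j, hj, m, hm, hm'⟩ := ha
    simp only [Multiset.map_singleton, Multiset.sum_singleton, Multiset.prod_singleton] at hj hm'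
    refine (h1 M hM).tate j (hj ▸ hd) y (hj ▸ hy) ⟨m, hm, ?_⟩
    rw [iterate_eigen _ hα, hm']
  | @pair a b t hab _ ih =>
    obtain ⟨M, π, y, x', ε, hM, hd, hy, hα, hx', rfl⟩ := hx.extract rfl
    obtain ⟨M', π', y', x'', ε', hM', hd', hy', hα', hx'', rfl⟩ := hx'.extract rfl
    apply Submodule.smul_mem
    rw [mul_smul_comm]
    apply Submodule.smul_mem
    rw [← mul_assoc]
    refine algSpan_mul ?_ (ih hx'')
    have e1 : W.map π y * W.map π' y' = W.map (Obj.lift π π')
        (W.map (fst M.X M'.X) y * W.map (snd M.X M'.X) y') := by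
      rw [map_mul, ← W.map_comp, ← W.map_comp, Obj.lift_fst, Obj.lift_snd]
    rw [e1]
    apply algSpan_map
    obtain ⟨j, hj, m, hm, hm'⟩ := hab
    simp only [Multiset.insert_eq_cons, Multiset.map_cons, Multiset.map_singleton,
      Multiset.sum_cons, Multiset.sum_singleton, Multiset.prod_cons,
      Multiset.prod_singleton] at hj hm'
    refine h2 M hM M' hM' a.1 hd b.1 hd' j hj _
      (hj ▸ W.mul_mem (W.map_mem _ hy) (W.map_mem _ hy')) ⟨m, hm, ?_⟩
    have h3 : W.map (pairMap M.f M'.f) (W.map (fst M.X M'.X) y * W.map (snd M.X M'.X) y') =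
        (a.2 * b.2) • (W.map (fst M.X M'.X) y * W.map (snd M.X M'.X) y') := by
      rw [map_pairMap, hα, hα', map_smul, map_smul, smul_mul_smul_comm]
    rw [iterate_eigen _ h3, hm']

end Pool.Agent.Y146.GR
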