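import Pool.Agent.W552.FrobDefs
import Pool.Agent.W550.B.Defs
import Pool.Agent.H281R3.HT.FDef

/-!
# Relations between Frobenius eigenvalues which are stable under conjugations: definitions
-/

open CategoryTheory AlgebraicGeometry

universe u v

namespace Pool.Agent.Y146.GR

open Pool.Agent.H914 Pool.Agent.H914.VarClass Pool.Agent.H914.VarClass.Obj
  Pool.Agent.H914.WeilCohomology Pool.Agent.H281R3.HT Pool.Agent.W552 Pool.Agent.W550.B

variable {k : Type u} [Field k] {𝒱 : VarClass k} {ops : CycleOps 𝒱}

/-- A variety `X` with an endomorphism `f` (in the intended use: the Frobenius endomorphism) and a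
set `D` of degrees (in the intended use: `{1}` for abelian varieties, all degrees for curves). -/
structure Datum (𝒱 : VarClass k) where
  /-- the variety -/
  X : 𝒱.Obj
  /-- the endomorphism -/
  f : X ⟶ X
  /-- the degrees -/
  D : Set ℕ

/-- The subspace of the cohomology of `X × Y` spanned by the external products of the elements of
`V` and of `V'`. -/
noncomputable def extSpan (W : WeilCohomology.{u, v} ops) {X Y : 𝒱.Obj} (V : Submodule W.K (W.H X))
    (V' : Submodule W.K (W.H Y)) : Submodule W.K (W.H (X.prod Y)) :=
  Submodule.span W.K {c | ∃ a ∈ V, ∃ b ∈ V', c = ext W a b}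

/-- The variety `Q` is a product of varieties in `𝓜` (with any repetitions), `F` is the product of
their endomorphisms, and `V` is the subspace of the cohomology of `Q` spanned by the external
products of classes on the factors whose degrees belong to the given sets of degrees. -/
inductive IsTensorProduct (W : WeilCohomology.{u, v} ops) (𝓜 : Set (Datum 𝒱)) :
    (Q : 𝒱.Obj) → (Q ⟶ Q) → Submodule W.K (W.H Q) → Prop
  | base {M : Datum 𝒱} : M ∈ 𝓜 → IsTensorProduct W 𝓜 M.X M.f (⨆ d ∈ M.D, W.gr M.X d)
  | prod {Q R : 𝒱.Obj} {F : Q ⟶ Q} {G : R ⟶ R} {V : Submodule W.K (W.H Q)}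
      {V' : Submodule W.K (W.H R)} : IsTensorProduct W 𝓜 Q F V → IsTensorProduct W 𝓜 R G V' →
      IsTensorProduct W 𝓜 (Q.prod R) (pairMap F G) (extSpan W V V')

/-- The cohomology of `Y` is spanned by the images, under algebraic correspondences from products
of varieties in `𝓜` to `Y`, of external products of classes whose degrees belong to the given sets
of degrees. -/
def GeneratedBy (W : WeilCohomology.{u, v} ops) (𝓜 : Set (Datum 𝒱)) (Y : 𝒱.Obj) : Prop :=
  Submodule.span W.K {c : W.H Y | ∃ (Q : 𝒱.Obj) (F : Q ⟶ Q) (V : Submodule W.K (W.H Q))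
    (p : ℕ) (γ : (Q.prod Y).Cycles), IsTensorProduct W 𝓜 Q F V ∧ (Q.prod Y).IsCyc p γ ∧
      ∃ x ∈ V, c = cycMap W γ x} = ⊤

/-- The Tate conjecture in codimension `m` for `X` and its Frobenius endomorphism `f` relative to
the field with `q` elements: every class of degree `2 m` on which, for some `r ≥ 1`, the `r`-th
iterate of `f^*` is the multiplication by `q ^ (r m)` is a linear combination of classes of
algebraic cycles. -/
def TateIn (W : WeilCohomology.{u, v} ops) (X : 𝒱.Obj) (f : X ⟶ X) (q m : ℕ) : Prop :=
  ∀ c ∈ W.gr X (2 * m), (∃ r ≥ 1, (W.map f)^[r] c = (q : W.K) ^ (r * m) • c) → c ∈ algSpan W X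

/-- The endomorphism `f` acts on the top cohomology as `q ^ dim X`, it is diagonalizable, and the
Tate conjecture holds for `X` in the codimensions `m` with `2 m` in the set of degrees. -/
structure IsFrobenius (W : WeilCohomology.{u, v} ops) (q : ℕ) (M : Datum 𝒱) : Prop where
  degree : ∀ a, W.tr M.X (W.map M.f a) = (q : W.K) ^ M.X.dim * W.tr M.X a
  diagonalizable : Diagonalizable W M.f
  tate : ∀ m, 2 * m ∈ M.D → TateIn W M.X M.f q m

/-- The Tate conjecture for the product of the two varieties, in the codimensions `m` such that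
`2 m` is the sum of two elements of the sets of degrees. -/
def PairTate (W : WeilCohomology.{u, v} ops) (q : ℕ) (M N : Datum 𝒱) : Prop :=
  ∀ d ∈ M.D, ∀ e ∈ N.D, ∀ m, d + e = 2 * m →
    TateIn W (M.X.prod N.X) (pairMap M.f N.f) q m

/-- Every relation between eigenvalues of the endomorphisms of the members of `𝓜`, on the
cohomology in the given degrees, which is stable under all conjugations in the set `C` is a sum of
relations between one or two eigenvalues. -/
def StableRelationsSplit (W : WeilCohomology.{u, v} ops) (q : ℕ) (𝓜 : Set (Datum 𝒱))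
    (C : Set (Conjugation W)) : Prop :=
  ∀ s : Multiset (ℕ × W.K), (∀ x ∈ s, ∃ M ∈ 𝓜, x.1 ∈ M.D ∧ IsWeight W M.f x) →
    IsTateRel q s → (∀ σ ∈ C, s.map (Prod.map id σ.τ) = s) → PairGenerated q s

end Pool.Agent.Y146.GR
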