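import Pool.Agent.Y146.GR.Mono

/-!
# The types of the classes on products
-/

open CategoryTheory AlgebraicGeometry

universe u v

namespace Pool.Agent.Y146.GR

open Pool.Agent.H914 Pool.Agent.H914.VarClass Pool.Agent.H914.VarClass.Obj
  Pool.Agent.H914.WeilCohomology Pool.Agent.H281R3.HT Pool.Agent.W552 Pool.Agent.W550.B

variable {k : Type u} [Field k] {𝒱 : VarClass k} {ops : CycleOps 𝒱}
  {W : WeilCohomology.{u, v} ops} {X Y Z Q : 𝒱.Obj} {𝓜 : Set (Datum 𝒱)}

/-- A system of classes of given types. -/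
structure IsTypes (W : WeilCohomology.{u, v} ops) (𝓜 : Set (Datum 𝒱)) (q : ℕ) (Q : 𝒱.Obj)
    (F : Q ⟶ Q) (V : Submodule W.K (W.H Q)) (L : Multiset (ℕ × W.K) → W.H Q → Prop) : Prop where
  span : ∀ x ∈ V, x ∈ Submodule.span W.K {y | ∃ s, L s y}
  fin : {s | ∃ x, x ≠ 0 ∧ L s x}.Finite
  mono : ∀ s x, L s x → IsMono W 𝓜 Q s x
  frob : ∀ s x, L s x → W.map F x = (s.map Prod.snd).prod • x
  conj : ∀ (σ : Conjugation W) s x, L s x → L (s.map (Prod.map id σ.τ)) (σ.σ Q x)
  tr : ∀ w, W.tr Q (W.map F w) = (q : W.K) ^ Q.dim * W.tr Q w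

lemma conj_zero (σ : Conjugation W) : σ.σ X 0 = 0 := by
  have := (σ.isConjugation X).smul 0 0
  rwa [smul_zero, map_zero, zero_smul] at this

lemma conj_ne_zero (σ : Conjugation W) {x : W.H X} (hx : x ≠ 0) : σ.σ X x ≠ 0 :=
  fun h => hx ((σ.isConjugation X).inj x h)

/-- The eigenvectors on a variety of the set. -/
def baseL (W : WeilCohomology.{u, v} ops) (M : Datum 𝒱) (s : Multiset (ℕ × W.K))
    (y : W.H M.X) : Prop :=
  ∃ d ∈ M.D, ∃ α : W.K, s = {(d, α)} ∧ y ∈ W.gr M.X d ∧ W.map M.f y = α • y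

/-- The types on a variety of the set. -/
theorem isTypes_base {q : ℕ} {M : Datum 𝒱} (hM : M ∈ 𝓜) (h : IsFrobenius W q M) :
    IsTypes W 𝓜 q M.X M.f (⨆ d ∈ M.D, W.gr M.X d) (baseL W M) where
  span := by
    intro x hx
    have key : ∀ d ∈ M.D, W.gr M.X d ≤ Submodule.span W.K {y | ∃ s, baseL W M s y} := by
      intro d hd x hx
      have h1 : x ∈ Submodule.span W.K {x : W.H M.X | ∃ (d : ℕ) (α : W.K), x ∈ W.gr M.X d ∧
          W.map M.f x = α • x} := by
        rw [span_eigen h.diagonalizable]; exact Submodule.mem_top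
      have h2 : ∀ y ∈ Submodule.span W.K {x : W.H M.X | ∃ (d : ℕ) (α : W.K), x ∈ W.gr M.X d ∧
          W.map M.f x = α • x}, H914.proj (W.isInternal M.X) d y ∈
          Submodule.span W.K {y | ∃ s, baseL W M s y} := by
        intro y hy
        induction hy using Submodule.span_induction with
        | mem y hy =>
          obtain ⟨e, α, h3, h4⟩ := hy
          by_cases he : e = d
          · subst he
            rw [proj_same _ h3]
            exact Submodule.subset_span ⟨_, e, hd, α, rfl, h3, h4⟩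
          · rw [proj_ne _ h3 he]
            exact Submodule.zero_mem _
        | zero => rw [map_zero]; exact Submodule.zero_mem _
        | add a b _ _ ha hb => rw [map_add]; exact Submodule.add_mem _ ha hb
        | smul c a _ ha => rw [map_smul]; exact Submodule.smul_mem _ _ ha
      have h3 := h2 x h1
      rwa [proj_same _ hx] at h3
    exact (iSup₂_le key) hx
  fin := by
    have hf := Module.End.finite_hasEigenvalue (W.map M.f).toLinearMap
    refine Set.Finite.subset (((Set.finite_Iic (2 * M.X.dim)).prod hf).image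
      (fun a : ℕ × W.K => ({a} : Multiset (ℕ × W.K)))) ?_
    rintro s ⟨x, hx0, d, hd, α, rfl, hx, hα⟩
    refine ⟨(d, α), ⟨?_, ?_⟩, rfl⟩
    · rw [Set.mem_Iic]
      by_contra hcon
      rw [W.gr_eq_bot M.X d (by omega)] at hx
      exact hx0 ((Submodule.mem_bot _).1 hx)
    · exact Module.End.hasEigenvalue_of_hasEigenvector
        ⟨Module.End.mem_eigenspace_iff.2 hα, hx0⟩
  mono := by
    rintro s x ⟨d, hd, α, rfl, hx, hα⟩
    have h1 := IsMono.cons hM (𝟙 M.X) hd hx hα IsMono.one
    rw [W.map_id, mul_one] at h1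
    exact h1
  frob := by
    rintro s x ⟨d, hd, α, rfl, hx, hα⟩
    rw [Multiset.map_singleton, Multiset.prod_singleton, hα]
  conj := by
    rintro σ s x ⟨d, hd, α, rfl, hx, hα⟩
    refine ⟨d, hd, σ.τ α, by rw [Multiset.map_singleton]; rfl,
      (σ.isConjugation _).gr _ _ hx, ?_⟩
    rw [σ.map M.f, hα, (σ.isConjugation _).smul]
  tr := h.degree

/-- External products of classes of given types. -/
def prodL {Q R : 𝒱.Obj} (L : Multiset (ℕ × W.K) → W.H Q → Prop)
    (L' : Multiset (ℕ × W.K) → W.H R → Prop) (s : Multiset (ℕ × W.K)) (z : W.H (Q.prod R)) :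
    Prop :=
  ∃ s₁ s₂ x y, s = s₁ + s₂ ∧ L s₁ x ∧ L' s₂ y ∧ z = ext W x y

/-- The types on a product. -/
theorem isTypes_prod {q : ℕ} {Q R : 𝒱.Obj} {F : Q ⟶ Q} {G : R ⟶ R} {V : Submodule W.K (W.H Q)}
    {V' : Submodule W.K (W.H R)} {L : Multiset (ℕ × W.K) → W.H Q → Prop}
    {L' : Multiset (ℕ × W.K) → W.H R → Prop} (h : IsTypes W 𝓜 q Q F V L)
    (h' : IsTypes W 𝓜 q R G V' L') :
    IsTypes W 𝓜 q (Q.prod R) (pairMap F G) (extSpan W V V') (prodL L L') where
  span := by
    intro z hz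
    refine (Submodule.span_le.2 ?_) hz
    rintro _ ⟨a, ha, b, hb, rfl⟩
    have h1 := h.span a ha
    have h2 := h'.span b hb
    clear ha hb hz
    rw [SetLike.mem_coe]
    induction h1 using Submodule.span_induction with
    | mem x hx =>
      obtain ⟨s, hs⟩ := hx
      induction h2 using Submodule.span_induction with
      | mem y hy =>
        obtain ⟨t, ht⟩ := hy
        exact Submodule.subset_span ⟨s + t, s, t, x, y, rfl, hs, ht, rfl⟩
      | zero => rw [H281R3.HT.ext, map_zero, mul_zero]; exact Submodule.zero_mem _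
      | add c c' _ _ hc hc' =>
        rw [H281R3.HT.ext, map_add, mul_add]
        exact Submodule.add_mem _ hc hc'
      | smul t c _ hc =>
        rw [H281R3.HT.ext, map_smul, mul_smul_comm]
        exact Submodule.smul_mem _ _ hc
    | zero => rw [H281R3.HT.ext, map_zero, zero_mul]; exact Submodule.zero_mem _
    | add c c' _ _ hc hc' =>
      rw [H281R3.HT.ext, map_add, add_mul]
      exact Submodule.add_mem _ hc hc'
    | smul t c _ hc =>
      rw [H281R3.HT.ext, map_smul, smul_mul_assoc]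
      exact Submodule.smul_mem _ _ hc
  fin := by
    refine Set.Finite.subset (h.fin.image2 (fun s t => s + t) h'.fin) ?_
    rintro _ ⟨z, hz0, s, t, x, y, rfl, hx, hy, rfl⟩
    refine ⟨s, ⟨x, ?_, hx⟩, t, ⟨y, ?_, hy⟩, rfl⟩
    · rintro rfl
      exact hz0 (by rw [H281R3.HT.ext, map_zero, zero_mul])
    · rintro rfl
      exact hz0 (by rw [H281R3.HT.ext, map_zero, mul_zero])
  mono := by
    rintro _ _ ⟨s, t, x, y, rfl, hx, hy, rfl⟩
    exact ((h.mono s x hx).map (fst Q R)).mul ((h'.mono t y hy).map (snd Q R))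
  frob := by
    rintro _ _ ⟨s, t, x, y, rfl, hx, hy, rfl⟩
    rw [H281R3.HT.ext, map_pairMap, h.frob s x hx, h'.frob t y hy, map_smul, map_smul,
      smul_mul_smul_comm, Multiset.map_add, Multiset.prod_add]
  conj := by
    rintro σ _ _ ⟨s, t, x, y, rfl, hx, hy, rfl⟩
    refine ⟨_, _, _, _, Multiset.map_add _ _ _, h.conj σ s x hx, h'.conj σ t y hy, ?_⟩
    rw [H281R3.HT.ext, H281R3.HT.ext, (σ.isConjugation _).mul, σ.map, σ.map]
  tr := by
    intro w
    refine W.kunneth_induction (p := fun w => W.tr (Q.prod R) (W.map (pairMap F G) w) =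
      (q : W.K) ^ (Q.prod R).dim * W.tr (Q.prod R) w) ?_ ?_ w
    · intro a b ha hb
      rw [map_add, map_add, ha, hb, map_add, mul_add]
    · intro i j a _ b _
      rw [map_pairMap, W.tr_prod, W.tr_prod, h.tr, h'.tr, dim_prod, pow_add]
      ring

/-- Systems of types exist on all products. -/
theorem exists_types {q : ℕ} (h1 : ∀ M ∈ 𝓜, IsFrobenius W q M) {F : Q ⟶ Q}
    {V : Submodule W.K (W.H Q)} (h : IsTensorProduct W 𝓜 Q F V) :
    ∃ L, IsTypes W 𝓜 q Q F V L := by
  induction h with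
  | base hM => exact ⟨_, isTypes_base hM (h1 _ hM)⟩
  | prod _ _ ih ih' =>
    obtain ⟨L, hL⟩ := ih
    obtain ⟨L', hL'⟩ := ih'
    exact ⟨_, isTypes_prod hL hL'⟩

end Pool.Agent.Y146.GR
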